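import Mathlib

set_option autoImplicit false

namespace Pool.Agent.Results.MP_ae2185_co.No

section Example

def edges : List (Fin 14 × Fin 14) :=
  [(0, 1), (0, 2), (0, 9), (0, 13), (1, 5), (1, 9), (2, 3), (2, 4),
    (2, 8), (3, 8), (3, 10), (4, 7), (4, 12), (4, 13), (5, 11), (6, 8),
    (6, 12), (7, 9), (7, 12), (10, 11), (10, 13), (11, 13)]

def adjB (u v : Fin 14) : Bool := edges.contains (u, v) || edges.contains (v, u)

lemma adjB_symm : ∀ u v, adjB u v = true → adjB v u = true := by decide +kernel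
lemma adjB_irr : ∀ u, adjB u u = false := by decide +kernel

def G0 : SimpleGraph (Fin 14) where
  Adj u v := adjB u v = true
  symm := ⟨adjB_symm⟩
  loopless := ⟨fun u h => by simp [adjB_irr u] at h⟩

instance : DecidableRel G0.Adj := fun u v => inferInstanceAs (Decidable (adjB u v = true))

lemma enum : ∀ b0 b1 b2 b3 b4 b5 b6 b7 b8 b9 b10 b11 b12 b13 : Bool,
    ((b0 && b1) || (b0 && b2) || (b0 && b9) || (b0 && b13) || (b1 && b5) || (b1 && b9) ||
      (b2 && b3) || (b2 && b4) || (b2 && b8) || (b3 && b8) || (b3 && b10) || (b4 && b7) ||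
      (b4 && b12) || (b4 && b13) || (b5 && b11) || (b6 && b8) || (b6 && b12) || (b7 && b9) ||
      (b7 && b12) || (b10 && b11) || (b10 && b13) || (b11 && b13) ||
      (Nat.ble (b0.toNat + b1.toNat + b2.toNat + b3.toNat + b4.toNat + b5.toNat + b6.toNat +
        b7.toNat + b8.toNat + b9.toNat + b10.toNat + b11.toNat + b12.toNat + b13.toNat) 5 &&
        (b5 || b6 || Nat.ble (b0.toNat + b1.toNat + b2.toNat + b3.toNat + b4.toNat + b5.toNat + b6.toNat +
        b7.toNat + b8.toNat + b9.toNat + b10.toNat + b11.toNat + b12.toNat + b13.toNat) 4))) = true := by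
  decide +kernel

lemma bound (s : Finset (Fin 14)) (hs : G0.IsIndepSet (s : Set (Fin 14))) :
    s.card ≤ 5 ∧ (5 ∉ s → 6 ∉ s → s.card ≤ 4) := by
  have key := enum (decide (0 ∈ s)) (decide (1 ∈ s)) (decide (2 ∈ s)) (decide (3 ∈ s))
    (decide (4 ∈ s)) (decide (5 ∈ s)) (decide (6 ∈ s)) (decide (7 ∈ s))
    (decide (8 ∈ s)) (decide (9 ∈ s)) (decide (10 ∈ s)) (decide (11 ∈ s))
    (decide (12 ∈ s)) (decide (13 ∈ s))
  have hc : s.card = ∑ v : Fin 14, (decide (v ∈ s)).toNat := by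
    have : ∀ v : Fin 14, (decide (v ∈ s)).toNat = if v ∈ s then 1 else 0 := by
      intro v
      by_cases h : v ∈ s <;> simp [h]
    simp only [this]
    simp
  have hn : ∀ u v : Fin 14, adjB u v = true → (decide (u ∈ s) && decide (v ∈ s)) = false := by
    intro u v huv
    by_contra h
    simp only [Bool.not_eq_false, Bool.and_eq_true, decide_eq_true_eq] at h
    have hne : u ≠ v := by
      rintro rfl
      simp [adjB_irr] at huv
    exact hs h.1 h.2 hne huv
  rw [hn 0 1 (by decide), hn 0 2 (by decide), hn 0 9 (by decide), hn 0 13 (by decide),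
    hn 1 5 (by decide), hn 1 9 (by decide), hn 2 3 (by decide), hn 2 4 (by decide),
    hn 2 8 (by decide), hn 3 8 (by decide), hn 3 10 (by decide), hn 4 7 (by decide),
    hn 4 12 (by decide), hn 4 13 (by decide), hn 5 11 (by decide), hn 6 8 (by decide),
    hn 6 12 (by decide), hn 7 9 (by decide), hn 7 12 (by decide), hn 10 11 (by decide),
    hn 10 13 (by decide), hn 11 13 (by decide)] at key
  simp only [Fin.sum_univ_succ, Fin.sum_univ_zero] at hc
  have hc' : s.card = (decide (0 ∈ s)).toNat + (decide (1 ∈ s)).toNat + (decide (2 ∈ s)).toNat +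
      (decide (3 ∈ s)).toNat + (decide (4 ∈ s)).toNat + (decide (5 ∈ s)).toNat +
      (decide (6 ∈ s)).toNat + (decide (7 ∈ s)).toNat + (decide (8 ∈ s)).toNat +
      (decide (9 ∈ s)).toNat + (decide (10 ∈ s)).toNat + (decide (11 ∈ s)).toNat +
      (decide (12 ∈ s)).toNat + (decide (13 ∈ s)).toNat := by
    rw [hc]
    simp only [← add_assoc, add_zero]
    rfl
  rw [← hc'] at key
  simp only [Bool.false_or, Bool.and_eq_true, Nat.ble_eq, Bool.or_eq_true, decide_eq_true_eq] at key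
  refine ⟨key.1, fun h5 h6 => ?_⟩
  rcases key.2 with (h | h) | h
  · exact absurd h h5
  · exact absurd h h6
  · exact h

lemma alpha_eq : G0.indepNum = 5 := by
  apply le_antisymm
  · obtain ⟨s, hs⟩ := G0.exists_isNIndepSet_indepNum
    rw [← hs.card_eq]
    exact (bound s hs.isIndepSet).1
  · have h : G0.IsIndepSet (({0, 3, 4, 5, 6} : Finset (Fin 14)) : Set (Fin 14)) := by
      intro u hu v hv _
      revert u v
      simp only [Finset.mem_coe]
      decide +kernel
    exact h.card_le_indepNum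

def wit : List ((Fin 14 × Fin 14) × Finset (Fin 14)) :=
  [((0, 1), {0, 1, 3, 4, 6, 11}), ((0, 2), {0, 2, 5, 6, 7, 10}),
    ((0, 9), {0, 3, 4, 5, 6, 9}), ((0, 13), {0, 3, 5, 6, 7, 13}),
    ((1, 5), {1, 2, 5, 6, 7, 10}), ((1, 9), {1, 3, 4, 6, 9, 11}),
    ((2, 3), {1, 2, 3, 6, 7, 11}), ((2, 4), {2, 4, 5, 6, 9, 10}),
    ((2, 8), {2, 5, 8, 9, 10, 12}), ((3, 8), {3, 5, 8, 9, 12, 13}),
    ((3, 10), {0, 3, 4, 5, 6, 10}), ((4, 7), {0, 3, 4, 5, 6, 7}),
    ((4, 12), {0, 4, 5, 8, 10, 12}), ((4, 13), {3, 4, 5, 6, 9, 13}),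
    ((5, 11), {0, 3, 4, 5, 6, 11}), ((6, 8), {0, 4, 5, 6, 8, 10}),
    ((6, 12), {2, 5, 6, 9, 10, 12}), ((7, 9), {2, 5, 6, 7, 9, 10}),
    ((7, 12), {0, 5, 7, 8, 10, 12}), ((10, 11), {1, 2, 6, 7, 10, 11}),
    ((10, 13), {1, 2, 6, 7, 10, 13}), ((11, 13), {1, 2, 6, 7, 11, 13})]

lemma wit_ok : ∀ u v : Fin 14, adjB u v = true → ∃ p ∈ wit, p.2.card = 6 ∧
    ∀ a ∈ p.2, ∀ b ∈ p.2, adjB a b = true → (a = u ∧ b = v) ∨ (a = v ∧ b = u) := by
  decide +kernel

lemma critical : ∀ e ∈ G0.edgeSet, G0.indepNum < (G0.deleteEdges {e}).indepNum := by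
  intro e he
  induction e using Sym2.ind with
  | _ u v =>
    obtain ⟨p, -, h1, h2⟩ := wit_ok u v he
    have h : (G0.deleteEdges {s(u, v)}).IsIndepSet (p.2 : Set (Fin 14)) := by
      intro a ha b hb _ hab
      rw [SimpleGraph.deleteEdges_adj] at hab
      apply hab.2
      rcases h2 a ha b hb hab.1 with ⟨rfl, rfl⟩ | ⟨rfl, rfl⟩
      · rfl
      · exact Sym2.eq_swap
    have := h.card_le_indepNum
    rw [alpha_eq]
    omega

end Example

theorem result : ¬ ∀ (n : ℕ) (G : SimpleGraph (Fin n)),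
    (∀ e ∈ G.edgeSet, G.indepNum < (G.deleteEdges {e}).indepNum) → (∀ v, ∃ w, G.Adj v w) →
    ∀ x y : Fin n, (G.neighborSet x).ncard ≠ 1 → (G.neighborSet y).ncard ≠ 1 →
      ∃ s : Finset (Fin n), G.IsNIndepSet G.indepNum s ∧ x ∉ s ∧ y ∉ s := by
  intro h
  obtain ⟨s, hs, h5, h6⟩ := h 14 G0 critical (by decide +kernel) 5 6
    (by rw [Set.ncard_eq_toFinset_card']; decide +kernel)
    (by rw [Set.ncard_eq_toFinset_card']; decide +kernel)
  have h1 := (bound s hs.isIndepSet).2 h5 h6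
  have h2 := hs.card_eq
  rw [alpha_eq] at h2
  omega

end Pool.Agent.Results.MP_ae2185_co.No
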